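import Mathlib
import Pool.Agent.H27.ZF.TA

/-!
Board zf (MP_52e316_nt), row TAI: the Dirichlet series over the integers without small prime factors is close
to 1 far to the right.
-/

set_option autoImplicit false

namespace Pool.Agent.H5.ZF

/-- an integer larger than 1 without prime factors up to `z` is larger than `z` -/
lemma lt_of_no_small {z n : ℕ} (hn : 1 ≤ n) (hn1 : n ≠ 1)
    (h : ∀ p ∈ (Finset.range (z + 1)).filter Nat.Prime, ¬ p ∣ n) : z < n := by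
  by_contra hlt
  have hle : n ≤ z := not_lt.mp hlt
  have hp := Nat.minFac_prime hn1
  have hd := Nat.minFac_dvd n
  have hle2 : Nat.minFac n ≤ n := Nat.minFac_le (by omega)
  refine h (Nat.minFac n) ?_ hd
  rw [Finset.mem_filter, Finset.mem_range]
  exact ⟨by omega, hp⟩

/-- the size of one term -/
lemma term_le {m : ℕ} {C0 : ℝ} (hC0 : 1 ≤ C0) {a : ℂ} {n z : ℕ} (hz : 1 ≤ z) (hzn : z < n)
    (ha : ‖a‖ ≤ C0 * (n : ℝ) ^ m) {s : ℂ} (hs : (m : ℝ) + 4 ≤ s.re) :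
    ‖a * (n : ℂ) ^ (-s)‖ ≤ C0 / z * (1 / (n : ℝ) ^ 3) := by
  have hn0 : 0 < n := by omega
  have hnR : (0 : ℝ) < n := by exact_mod_cast hn0
  have hn1 : (1 : ℝ) ≤ n := by exact_mod_cast hn0
  have hzR : (0 : ℝ) < z := by exact_mod_cast hz
  have hznR : (z : ℝ) ≤ n := by exact_mod_cast hzn.le
  have hC0p : (0 : ℝ) < C0 := by linarith
  rw [norm_mul, Complex.norm_natCast_cpow_of_pos hn0, Complex.neg_re]
  have h1 : (n : ℝ) ^ (-s.re) ≤ (n : ℝ) ^ (-((m : ℝ) + 4)) :=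
    Real.rpow_le_rpow_of_exponent_le hn1 (by linarith)
  have h2 : (n : ℝ) ^ (-((m : ℝ) + 4)) = ((n : ℝ) ^ (m + 4))⁻¹ := by
    rw [Real.rpow_neg hnR.le]
    congr 1
    rw [← Real.rpow_natCast]
    congr 1
    push_cast
    ring
  have h3 : ‖a‖ * (n : ℝ) ^ (-s.re) ≤ C0 * (n : ℝ) ^ m * ((n : ℝ) ^ (m + 4))⁻¹ := by
    rw [← h2]
    exact mul_le_mul ha h1 (Real.rpow_nonneg hnR.le _) (by positivity)
  refine h3.trans ?_
  have h4 : C0 * (n : ℝ) ^ m * ((n : ℝ) ^ (m + 4))⁻¹ = C0 / n * (1 / (n : ℝ) ^ 3) := by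
    field_simp
    ring
  rw [h4]
  have h5 : C0 / (n : ℝ) ≤ C0 / z := div_le_div_of_nonneg_left hC0p.le hzR hznR
  exact mul_le_mul_of_nonneg_right h5 (by positivity)

theorem pf_TAI : Pool.Agent.H27.ZF.T_TAI := by
  intro m C0 hC0
  have hsum : Summable (fun n : ℕ => 1 / (n : ℝ) ^ 3) :=
    Real.summable_one_div_nat_pow.mpr (by norm_num)
  have hS0 : 0 ≤ ∑' n : ℕ, 1 / (n : ℝ) ^ 3 := tsum_nonneg fun n => by positivity
  refine ⟨C0 * (∑' n : ℕ, 1 / (n : ℝ) ^ 3) + 1, ?_, ?_⟩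
  · have : 0 ≤ C0 * (∑' n : ℕ, 1 / (n : ℝ) ^ 3) := mul_nonneg (by linarith) hS0
    linarith
  intro lam h1 hlam z hz s hs
  set f : ℕ → ℂ := fun n => if 1 ≤ n ∧ ∀ p ∈ (Finset.range (z + 1)).filter Nat.Prime, ¬ p ∣ n then
    lam n * (n : ℂ) ^ (-s) else 0 with hf
  set g : ℕ → ℂ := fun n => f n - (if n = 1 then (1 : ℂ) else 0) with hg
  have hzR : (0 : ℝ) < z := by exact_mod_cast hz
  have hf1 : f 1 = 1 := by
    have hc : 1 ≤ 1 ∧ ∀ p ∈ (Finset.range (z + 1)).filter Nat.Prime, ¬ p ∣ 1 := by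
      refine ⟨le_rfl, fun p hp hd => ?_⟩
      have hpp := (Finset.mem_filter.mp hp).2
      exact hpp.one_lt.ne' (Nat.dvd_one.mp hd)
    simp only [hf]
    rw [if_pos hc, h1, Nat.cast_one, Complex.one_cpow, mul_one]
  have hgb : ∀ n, ‖g n‖ ≤ C0 / z * (1 / (n : ℝ) ^ 3) := by
    intro n
    have hnn : 0 ≤ C0 / z * (1 / (n : ℝ) ^ 3) := by
      have : (0 : ℝ) ≤ C0 / z := div_nonneg (by linarith) hzR.le
      positivity
    by_cases hn : n = 1
    · subst hn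
      simp only [hg]
      rw [hf1, if_true, sub_self, norm_zero]
      exact hnn
    · simp only [hg]
      rw [if_neg hn, sub_zero]
      by_cases hc : 1 ≤ n ∧ ∀ p ∈ (Finset.range (z + 1)).filter Nat.Prime, ¬ p ∣ n
      · simp only [hf]
        rw [if_pos hc]
        exact term_le hC0 hz (lt_of_no_small hc.1 hn hc.2) (hlam n hc.1) hs
      · simp only [hf]
        rw [if_neg hc, norm_zero]
        exact hnn
  have hgs : Summable g := Summable.of_norm_bounded (hsum.mul_left (C0 / z)) hgb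
  have his : HasSum (fun n : ℕ => if n = 1 then (1 : ℂ) else 0) 1 := hasSum_ite_eq 1 1
  have hfg : ∑' n, f n = ∑' n, g n + 1 := by
    have : f = fun n => g n + (if n = 1 then (1 : ℂ) else 0) := by
      funext n
      simp only [hg]
      ring
    rw [this]
    exact (hgs.hasSum.add his).tsum_eq
  rw [hfg, add_sub_cancel_right]
  have hb : ‖∑' n, g n‖ ≤ C0 / z * ∑' n : ℕ, 1 / (n : ℝ) ^ 3 :=
    tsum_of_norm_bounded (hsum.hasSum.mul_left (C0 / z)) hgb
  refine hb.trans ?_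
  rw [div_mul_eq_mul_div]
  exact div_le_div_of_nonneg_right (by linarith) hzR.le

end Pool.Agent.H5.ZF
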