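import Mathlib
import Pool.Agent.H27.ZF.TA

/-!
Board zf (MP_52e316_nt), row NZR: no zeros with real part at least `1/2 + d` on the height `t`, if the
Dirichlet polynomials and the L-function are small near this height.
-/

set_option autoImplicit false

namespace Pool.Agent.H5.ZF

open Pool.Agent.H27.ZF

/-- the product of the inverses of the local factors of the primes up to `z` -/
noncomputable def PQ (m : ℕ) (q : ℕ → ℕ → ℂ) (z : ℕ) (s : ℂ) : ℂ :=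
  ∏ p ∈ (Finset.range (z + 1)).filter Nat.Prime, qv m (q p) ((p : ℂ) ^ (-s))

lemma diff_qv (m : ℕ) (q : ℕ → ℂ) {p : ℕ} (hp : p ≠ 0) :
    Differentiable ℂ (fun s : ℂ => qv m q ((p : ℂ) ^ (-s))) := by
  unfold qv
  refine Differentiable.fun_sum fun j _ => ?_
  refine Differentiable.const_mul ?_ _
  refine Differentiable.pow ?_ _
  exact (differentiable_id.neg).const_cpow (Or.inl (by exact_mod_cast hp))

lemma diff_PQ (m : ℕ) (q : ℕ → ℕ → ℂ) (z : ℕ) : Differentiable ℂ (PQ m q z) := by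
  unfold PQ
  refine Differentiable.fun_finsetProd fun p hp => ?_
  exact diff_qv m (q p) (Finset.mem_filter.mp hp).2.ne_zero

/-- the bound far to the right -/
lemma far_right (hEPR : T_EPR) {m : ℕ} {C0 CT : ℝ} (hC0 : 1 ≤ C0)
    (hT : ∀ lam : ℕ → ℂ, lam 1 = 1 → (∀ n : ℕ, 1 ≤ n → ‖lam n‖ ≤ C0 * (n : ℝ) ^ m) →
      ∀ z : ℕ, 1 ≤ z → ∀ s : ℂ, (m : ℝ) + 4 ≤ s.re →
      ‖(∑' n : ℕ, if 1 ≤ n ∧ ∀ p ∈ (Finset.range (z + 1)).filter Nat.Prime, ¬ p ∣ n then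
        lam n * (n : ℂ) ^ (-s) else 0) - 1‖ ≤ CT / z)
    {lam : ℕ → ℂ} {q : ℕ → ℕ → ℂ} {L : ℂ → ℂ} (hE : Eul m lam q)
    (hlam : ∀ n : ℕ, 1 ≤ n → ‖lam n‖ ≤ C0 * (n : ℝ) ^ m)
    (hL : ∀ s : ℂ, (m : ℝ) + 2 < s.re →
      HasSum (fun n : ℕ => if 1 ≤ n then lam n * (n : ℂ) ^ (-s) else 0) (L s))
    {z : ℕ} (hz : 1 ≤ z) {s : ℂ} (hs : (m : ℝ) + 4 ≤ s.re) :
    ‖L s * PQ m q z s - 1‖ ≤ CT / z := by
  have hsum : Summable (fun n : ℕ => if 1 ≤ n then ‖lam n‖ * (n : ℝ) ^ (-s.re) else 0) := by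
    have hb : Summable (fun n : ℕ => C0 * (1 / (n : ℝ) ^ 4)) :=
      (Real.summable_one_div_nat_pow.mpr (by norm_num)).mul_left C0
    refine Summable.of_nonneg_of_le ?_ ?_ hb
    · intro n
      split_ifs
      · positivity
      · exact le_rfl
    · intro n
      by_cases hn : 1 ≤ n
      · rw [if_pos hn]
        have hnR : (1 : ℝ) ≤ n := by exact_mod_cast hn
        have hn0 : (0 : ℝ) < n := by linarith
        have h1 : (n : ℝ) ^ (-s.re) ≤ (n : ℝ) ^ (-((m : ℝ) + 4)) :=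
          Real.rpow_le_rpow_of_exponent_le hnR (by linarith)
        have h2 : (n : ℝ) ^ (-((m : ℝ) + 4)) = ((n : ℝ) ^ (m + 4))⁻¹ := by
          rw [Real.rpow_neg hn0.le]
          congr 1
          rw [← Real.rpow_natCast]
          congr 1
          push_cast
          ring
        have h3 : ‖lam n‖ * (n : ℝ) ^ (-s.re) ≤ C0 * (n : ℝ) ^ m * ((n : ℝ) ^ (m + 4))⁻¹ := by
          rw [← h2]
          exact mul_le_mul (hlam n hn) h1 (Real.rpow_nonneg hn0.le _) (by positivity)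
        refine h3.trans (le_of_eq ?_)
        field_simp
        ring
      · rw [if_neg hn]
        positivity
  have h := hEPR m lam q s ((Finset.range (z + 1)).filter Nat.Prime) hE
    (fun p hp => (Finset.mem_filter.mp hp).2) hsum
  have h2 : ∑' n : ℕ, (if 1 ≤ n then lam n * (n : ℂ) ^ (-s) else 0) = L s :=
    (hL s (by linarith)).tsum_eq
  rw [h2] at h
  have h3 : L s * PQ m q z s = ∑' n : ℕ, if 1 ≤ n ∧ ∀ p ∈ (Finset.range (z + 1)).filter Nat.Prime,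
      ¬ p ∣ n then lam n * (n : ℂ) ^ (-s) else 0 := by
    rw [← h, mul_comm]
    rfl
  rw [h3]
  exact hT lam hE.one hlam z hz s hs

theorem pf_NZR (hPRD : T_PRD) (hEPR : T_EPR) (hTAI : T_TAI) (hHTC : T_HTC) : T_NZR := by
  intro m d C0 hm hd hd2 hC0
  have hmR : (1 : ℝ) ≤ m := by exact_mod_cast hm
  have hm0 : (0 : ℝ) < m := by linarith
  obtain ⟨c1, hc1, hP⟩ := hPRD m (d / 2) C0 hm (by linarith) (by linarith) hC0
  obtain ⟨CT, hCT, hT⟩ := hTAI m C0 hC0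
  obtain ⟨w, hw0, hw1, hH⟩ := hHTC 1 ((m : ℝ) + 5 - 1 / 2 - d) ((m : ℝ) + 5 - 1 / 2 - d / 2)
    one_pos (by linarith) (by linarith)
  obtain ⟨k0, Q1, hk0, hQ1, hP2⟩ := hP (w / (32 * m)) (by positivity)
  have hη : 0 < w / (32 * (m : ℝ)) := by positivity
  have hcpos : 0 < min c1 (w / (32 * (m : ℝ))) := lt_min hc1 hη
  refine ⟨min c1 (w / (32 * (m : ℝ))), k0, 2 * ((m : ℝ) + 5), max Q1 ((8 * CT) ^ (8 * (m : ℝ) / w)),
    hcpos, hk0, by linarith, le_max_of_le_left hQ1, ?_⟩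
  intro lam q L Q t hQ hE hlam hLd hL hSq hB s hs hst hLs
  have hcc1 : min c1 (w / (32 * (m : ℝ))) ≤ c1 := min_le_left _ _
  have hcc2 : min c1 (w / (32 * (m : ℝ))) ≤ w / (32 * (m : ℝ)) := min_le_right _ _
  revert hSq hB
  generalize min c1 (w / (32 * (m : ℝ))) = c at hcpos hcc1 hcc2 ⊢
  intro hSq hB
  have hQ1' : Q1 ≤ Q := (le_max_left _ _).trans hQ
  have hQ2' : (8 * CT) ^ (8 * (m : ℝ) / w) ≤ Q := (le_max_right _ _).trans hQ
  have hQone : 1 ≤ Q := hQ1.trans hQ1'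
  have hQpos : 0 < Q := by linarith
  obtain ⟨z, hz⟩ : ∃ z : ℝ, z = Q ^ (1 / (4 * (m : ℝ))) := ⟨_, rfl⟩
  rw [← hz] at hB
  have hz1 : 1 ≤ z := by
    rw [hz]
    exact Real.one_le_rpow hQone (by positivity)
  have hzQ : z ^ (4 * m) ≤ Q := by
    rw [hz, ← Real.rpow_natCast, ← Real.rpow_mul hQpos.le]
    have h1 : 1 / (4 * (m : ℝ)) * ((4 * m : ℕ) : ℝ) = 1 := by
      push_cast
      field_simp
    rw [h1, Real.rpow_one]
  have hZ1 : 1 ≤ ⌊z⌋₊ := Nat.le_floor (by exact_mod_cast hz1)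
  have hZR : (1 : ℝ) ≤ (⌊z⌋₊ : ℝ) := by exact_mod_cast hZ1
  have hZz : z / 2 ≤ (⌊z⌋₊ : ℝ) := by
    have h := Nat.lt_floor_add_one z
    linarith
  obtain ⟨X, hX⟩ : ∃ X : ℝ, X = Q ^ (w / (16 * (m : ℝ))) := ⟨_, rfl⟩
  have hX1 : 1 ≤ X := by
    rw [hX]
    exact Real.one_le_rpow hQone (by positivity)
  have hX2 : 8 * CT ≤ X ^ 2 := by
    have h := Real.rpow_le_rpow (by positivity) hQ2' (show 0 ≤ w / (8 * (m : ℝ)) by positivity)
    rw [← Real.rpow_mul (by positivity)] at h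
    have h2 : 8 * (m : ℝ) / w * (w / (8 * (m : ℝ))) = 1 := by field_simp
    rw [h2, Real.rpow_one] at h
    refine h.trans (le_of_eq ?_)
    rw [hX, ← Real.rpow_natCast, ← Real.rpow_mul hQpos.le]
    congr 1
    push_cast
    field_simp
    norm_num
  have hzw : z ^ w = X ^ 4 := by
    rw [hz, hX, ← Real.rpow_natCast, ← Real.rpow_mul hQpos.le, ← Real.rpow_mul hQpos.le]
    congr 1
    push_cast
    field_simp
    norm_num
  have hX24 : X ^ 2 ≤ X ^ 4 := pow_le_pow_right₀ hX1 (by norm_num)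
  have hzX : X ^ 4 ≤ z := by
    rw [← hzw]
    calc z ^ w ≤ z ^ (1 : ℝ) := Real.rpow_le_rpow_of_exponent_le hz1 hw1.le
      _ = z := Real.rpow_one z
  have hCT0 : 0 < CT := by linarith
  have hz0 : 0 < z := by linarith
  have hM1a : CT / (⌊z⌋₊ : ℝ) ≤ 2 * CT / z := by
    have h := div_le_div_of_nonneg_left hCT0.le (by linarith : 0 < z / 2) hZz
    refine h.trans (le_of_eq ?_)
    field_simp
  have hM1b : CT / (⌊z⌋₊ : ℝ) ≤ 1 / 4 := by
    refine hM1a.trans ?_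
    rw [div_le_div_iff₀ hz0 (by norm_num)]
    linarith
  have hM1pos : 0 < CT / (⌊z⌋₊ : ℝ) := by positivity
  have hR1 : ∀ u : ℂ, (m : ℝ) + 4 ≤ u.re → ‖L u * PQ m q ⌊z⌋₊ u - 1‖ ≤ CT / (⌊z⌋₊ : ℝ) :=
    fun u hu => far_right hEPR hC0 hT hE hlam hL hZ1 hu
  by_cases hbig : (m : ℝ) + 4 ≤ s.re
  · have h := hR1 s hbig
    rw [hLs, zero_mul, zero_sub, norm_neg, norm_one] at h
    linarith
  have hbig' : s.re < (m : ℝ) + 4 := not_le.mp hbig
  obtain ⟨c0, hc0⟩ : ∃ c0 : ℂ, c0 = ⟨(m : ℝ) + 5, t⟩ := ⟨_, rfl⟩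
  have hre : ∀ u : ℂ, |u.re - ((m : ℝ) + 5)| ≤ ‖u - c0‖ := by
    intro u
    have h := Complex.abs_re_le_norm (u - c0)
    have h1 : c0.re = (m : ℝ) + 5 := by rw [hc0]
    rwa [Complex.sub_re, h1] at h
  have him : ∀ u : ℂ, |u.im - t| ≤ ‖u - c0‖ := by
    intro u
    have h := Complex.abs_im_le_norm (u - c0)
    have h1 : c0.im = t := by rw [hc0]
    rwa [Complex.sub_im, h1] at h
  have hQcX : Q ^ c * Q ^ (w / (32 * (m : ℝ))) ≤ X := by
    rw [← Real.rpow_add hQpos, hX]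
    refine Real.rpow_le_rpow_of_exponent_le hQone ?_
    have h : w / (16 * (m : ℝ)) = w / (32 * (m : ℝ)) + w / (32 * (m : ℝ)) := by
      field_simp
      norm_num
    rw [h]
    linarith
  have hSq1 : Sq lam Q (Q ^ (2 * c1)) := by
    intro r hr
    refine (hSq r hr).trans ?_
    refine mul_le_mul_of_nonneg_right ?_ (by positivity)
    exact Real.rpow_le_rpow_of_exponent_le hQone (by linarith)
  have hfar : ∀ u : ℂ, ‖u - c0‖ ≤ (m : ℝ) + 5 - 1 / 2 - d / 2 →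
      ‖L u * PQ m q ⌊z⌋₊ u - 1‖ ≤ 2 * X := by
    intro u hu
    have h1 := abs_le.mp ((hre u).trans hu)
    have h2 := (him u).trans hu
    obtain ⟨hLu, hDu⟩ := hB u (by linarith [h1.1]) (by linarith [h1.2]) (by linarith)
    have hD1 : Dp m lam Q (k0 * Real.log Q) z (Q ^ c1) u := by
      intro j k r hj hk hkm hjQ hrQ
      refine (hDu j k r hj hk hkm hjQ hrQ).trans ?_
      refine mul_le_mul_of_nonneg_right ?_ (by positivity)
      exact Real.rpow_le_rpow_of_exponent_le hQone hcc1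
    have hPu := hP2 lam q Q hQ1' hE hlam hSq1 z hzQ u (by linarith [h1.1]) hD1
    have hLP : ‖L u * PQ m q ⌊z⌋₊ u‖ ≤ X := by
      rw [norm_mul]
      refine le_trans ?_ hQcX
      exact mul_le_mul hLu hPu (norm_nonneg _) (by positivity)
    calc ‖L u * PQ m q ⌊z⌋₊ u - 1‖ ≤ ‖L u * PQ m q ⌊z⌋₊ u‖ + ‖(1 : ℂ)‖ := norm_sub_le _ _
      _ ≤ X + 1 := by rw [norm_one]; linarith
      _ ≤ 2 * X := by linarith
  have hHs := hH (fun u => L u * PQ m q ⌊z⌋₊ u - 1) c0 (CT / (⌊z⌋₊ : ℝ)) (2 * X)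
    ((hLd.mul (diff_PQ m q ⌊z⌋₊)).sub_const 1) hM1pos (by linarith)
    (fun u hu => hR1 u (by linarith [(abs_le.mp ((hre u).trans hu)).1])) hfar s ?_
  · have hHs2 : (1 : ℝ) ≤ (CT / (⌊z⌋₊ : ℝ)) ^ w * (2 * X) ^ (1 - w) := by
      refine le_trans (le_of_eq ?_) hHs
      simp only [hLs, zero_mul, zero_sub, norm_neg, norm_one]
    have h1 : (CT / (⌊z⌋₊ : ℝ)) ^ w ≤ 2 * CT / X ^ 4 := by
      refine (Real.rpow_le_rpow hM1pos.le hM1a hw0.le).trans ?_
      rw [Real.div_rpow (by positivity) hz0.le, hzw]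
      refine div_le_div_of_nonneg_right ?_ (by positivity)
      calc (2 * CT) ^ w ≤ (2 * CT) ^ (1 : ℝ) :=
            Real.rpow_le_rpow_of_exponent_le (by linarith) hw1.le
        _ = 2 * CT := Real.rpow_one _
    have h2 : (2 * X) ^ (1 - w) ≤ 2 * X := by
      calc (2 * X) ^ (1 - w) ≤ (2 * X) ^ (1 : ℝ) :=
            Real.rpow_le_rpow_of_exponent_le (by linarith) (by linarith)
        _ = 2 * X := Real.rpow_one _
    have h3 : (CT / (⌊z⌋₊ : ℝ)) ^ w * (2 * X) ^ (1 - w) ≤ 2 * CT / X ^ 4 * (2 * X) :=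
      mul_le_mul h1 h2 (by positivity) (by positivity)
    have h4 : 2 * CT / X ^ 4 * (2 * X) ≤ 1 / 2 := by
      rw [div_mul_eq_mul_div, div_le_iff₀ (by positivity)]
      have hX3 : X * X ^ 2 ≤ X ^ 4 := by
        have : X ^ 3 ≤ X ^ 4 := pow_le_pow_right₀ hX1 (by norm_num)
        calc X * X ^ 2 = X ^ 3 := by ring
          _ ≤ X ^ 4 := this
      have hXX : X * (8 * CT) ≤ X * X ^ 2 := mul_le_mul_of_nonneg_left hX2 (by linarith)
      linarith
    linarith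
  · have h : s - c0 = ((s.re - ((m : ℝ) + 5) : ℝ) : ℂ) := by
      apply Complex.ext
      · rw [Complex.sub_re, hc0, Complex.ofReal_re]
      · rw [Complex.sub_im, hc0, Complex.ofReal_im, hst, sub_self]
    rw [h, Complex.norm_real, Real.norm_eq_abs, abs_le]
    constructor <;> linarith

end Pool.Agent.H5.ZF
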